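import Pool.Agent.Work.MP_163d7b_co.Tree

set_option autoImplicit false

namespace Pool.Agent.Work.MP_163d7b_co

open Finset

/-- Non-root vertices: two hubs `A i` with 201 leaves `L i j` each, and three hubs `B i` with
200 legs `B i - M i j - E i j` each. All five hubs are joined to the root. -/
abbrev W : Type :=
  (Fin 2 ⊕ Fin 2 × Fin 201) ⊕ (Fin 3 ⊕ (Fin 3 × Fin 200) ⊕ (Fin 3 × Fin 200))

abbrev vA (i : Fin 2) : W := .inl (.inl i)
abbrev vL (x : Fin 2 × Fin 201) : W := .inl (.inr x)
abbrev vB (i : Fin 3) : W := .inr (.inl i)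
abbrev vM (x : Fin 3 × Fin 200) : W := .inr (.inr (.inl x))
abbrev vE (x : Fin 3 × Fin 200) : W := .inr (.inr (.inr x))

def par : W → Option W
  | .inl (.inl _) => none
  | .inl (.inr x) => some (vA x.1)
  | .inr (.inl _) => none
  | .inr (.inr (.inl x)) => some (vB x.1)
  | .inr (.inr (.inr x)) => some (vM x)

def ht : Option W → ℕ
  | none => 0
  | some (.inl (.inl _)) => 1
  | some (.inl (.inr _)) => 2
  | some (.inr (.inl _)) => 1
  | some (.inr (.inr (.inl _))) => 2
  | some (.inr (.inr (.inr _))) => 3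

lemma hht (w : W) : ht (par w) < ht (some w) := by
  rcases w with (i | x) | (i | x | x) <;> simp [ht, par]

lemma card_W : Fintype.card W = 1607 := by simp [W]

lemma vs_root (g : W → ℕ) : vs par g none = ∑ i, g (vA i) + ∑ i, g (vB i) := by
  simp [vs, par, Fintype.sum_sum_type]

lemma vs_A (g : W → ℕ) (i : Fin 2) :
    vs par g (some (vA i)) = g (vA i) + ∑ j, g (vL (i, j)) := by
  simp [vs, par, Fintype.sum_sum_type, Fintype.sum_prod_type_right]

lemma vs_L (g : W → ℕ) (x : Fin 2 × Fin 201) : vs par g (some (vL x)) = g (vL x) := by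
  simp [vs, par, Fintype.sum_sum_type]

lemma vs_B (g : W → ℕ) (i : Fin 3) :
    vs par g (some (vB i)) = g (vB i) + ∑ j, g (vM (i, j)) := by
  simp [vs, par, Fintype.sum_sum_type, Fintype.sum_prod_type_right]

lemma vs_M (g : W → ℕ) (x : Fin 3 × Fin 200) :
    vs par g (some (vM x)) = g (vM x) + g (vE x) := by
  simp [vs, par, Fintype.sum_sum_type]

lemma vs_E (g : W → ℕ) (x : Fin 3 × Fin 200) : vs par g (some (vE x)) = g (vE x) := by
  simp [vs, par, Fintype.sum_sum_type]

/-! ### An antimagic labelling -/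

def g0 : W → ℕ
  | .inl (.inl i) => 1603 + i
  | .inl (.inr x) => 601 + 201 * x.1 + x.2
  | .inr (.inl i) => 1605 + i
  | .inr (.inr (.inl x)) => 1003 + 200 * x.1 + x.2
  | .inr (.inr (.inr x)) => 1 + 200 * x.1 + x.2

def s0 : Option W → ℕ
  | none => 8025
  | some (.inl (.inl i)) => 142504 + 40402 * i
  | some (.inl (.inr x)) => 601 + 201 * x.1 + x.2
  | some (.inr (.inl i)) => 222105 + 40001 * i
  | some (.inr (.inr (.inl x))) => 1004 + 400 * x.1 + 2 * x.2
  | some (.inr (.inr (.inr x))) => 1 + 200 * x.1 + x.2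

lemma vs_g0 : vs par g0 = s0 := by
  funext v
  rcases v with _ | ((i | x) | (i | x | x))
  · rw [vs_root]; decide
  · rw [vs_A]; revert i; decide +kernel
  · rw [vs_L]; rfl
  · rw [vs_B]; revert i; decide +kernel
  · rw [vs_M]; simp only [g0, s0]; omega
  · rw [vs_E]; rfl

lemma g0_inj : Function.Injective g0 := by
  intro u v h
  rcases u with (i | ⟨i, j⟩) | (i | ⟨i, j⟩ | ⟨i, j⟩) <;>
  rcases v with (i' | ⟨i', j'⟩) | (i' | ⟨i', j'⟩ | ⟨i', j'⟩) <;>
  simp only [g0] at h <;>
  first
    | (exfalso; omega)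
    | (obtain rfl : i = i' := Fin.ext (by omega); obtain rfl : j = j' := Fin.ext (by omega); rfl)
    | (obtain rfl : i = i' := Fin.ext (by omega); rfl)

lemma g0_range (w : W) : 1 ≤ g0 w ∧ g0 w ≤ Fintype.card W := by
  rw [card_W]
  rcases w with (i | ⟨i, j⟩) | (i | ⟨i, j⟩ | ⟨i, j⟩) <;> simp only [g0] <;> omega

lemma s0_inj : Function.Injective s0 := by
  intro u v h
  rcases u with _ | ((i | ⟨i, j⟩) | (i | ⟨i, j⟩ | ⟨i, j⟩)) <;>
  rcases v with _ | ((i' | ⟨i', j'⟩) | (i' | ⟨i', j'⟩ | ⟨i', j'⟩)) <;>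
  simp only [s0] at h <;>
  first
    | rfl
    | (exfalso; omega)
    | (obtain rfl : i = i' := Fin.ext (by omega); obtain rfl : j = j' := Fin.ext (by omega); rfl)
    | (obtain rfl : i = i' := Fin.ext (by omega); rfl)

/-! ### No strongly antimagic labelling -/

/-- The pendant edges. -/
def leaf : (Fin 2 × Fin 201) ⊕ (Fin 3 × Fin 200) → W
  | .inl x => vL x
  | .inr x => vE x

/-- The edges at the hubs `A` and the edges of the legs. -/
def big : (Fin 2 ⊕ Fin 2 × Fin 201) ⊕ ((Fin 3 × Fin 200) ⊕ (Fin 3 × Fin 200)) → W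
  | .inl x => .inl x
  | .inr x => .inr (.inr x)

lemma big_inj : Function.Injective big := by
  intro u v h
  rcases u with u | u <;> rcases v with v | v <;> simp_all [big]

theorem no_strong (g : W → ℕ) (hg : Function.Injective g) (hle : ∀ w, g w ≤ Fintype.card W)
    (hsurj : ∀ x, 1 ≤ x → x ≤ Fintype.card W → ∃ w, g w = x) (hv : Function.Injective (vs par g))
    (hmono : ∀ u v, vs par (fun _ => 1) u < vs par (fun _ => 1) v → vs par g u < vs par g v) :
    False := by
  rw [card_W] at hle hsurj
  -- `T` is the largest label of a pendant edge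
  obtain ⟨y, -, hy⟩ := exists_max_image univ (fun y => g (leaf y)) univ_nonempty
  set T := g (leaf y) with hT
  have hTE : ∀ x, g (vE x) ≤ T := fun x => hy (.inr x) (mem_univ _)
  have hTL : ∀ x, g (vL x) ≤ T := fun x => hy (.inl x) (mem_univ _)
  have hTM : ∀ x, T < g (vM x) + g (vE x) := by
    intro x
    rcases y with y | y
    · have := hmono (some (vL y)) (some (vM x)) (by rw [vs_L, vs_M]; norm_num)
      rwa [vs_L, vs_M] at this
    · have := hmono (some (vE y)) (some (vM x)) (by rw [vs_E, vs_M]; norm_num)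
      rwa [vs_E, vs_M] at this
  have hMinj : Function.Injective (fun x => g (vM x) + g (vE x)) := by
    intro x x' h
    have : vs par g (some (vM x)) = vs par g (some (vM x')) := by rw [vs_M, vs_M]; exact h
    simpa using hv this
  have hgM : Function.Injective (fun x => g (vM x)) := fun x x' h => by simpa using hg h
  have hgE : Function.Injective (fun x => g (vE x)) := fun x x' h => by simpa using hg h
  -- the hubs
  have hAB : ∀ i k, g (vB k) + ∑ j, g (vM (k, j)) < g (vA i) + ∑ j, g (vL (i, j)) := by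
    intro i k
    have := hmono (some (vB k)) (some (vA i)) (by rw [vs_A, vs_B]; simp)
    rwa [vs_A, vs_B] at this
  set SA : ℤ := ∑ i, (g (vA i) : ℤ) + ∑ x, (g (vL x) : ℤ) with hSA
  set SM : ℤ := ∑ x, (g (vM x) : ℤ) with hSM
  set SE : ℤ := ∑ x, (g (vE x) : ℤ) with hSE
  have ha : 2 * SM < 3 * SA := by
    have h1 : 2 * ∑ x, g (vM x) < 3 * (∑ i, g (vA i) + ∑ x, g (vL x)) := by
      rw [Fintype.sum_prod_type, Fintype.sum_prod_type, Fin.sum_univ_three, Fin.sum_univ_two,
        Fin.sum_univ_two]
      have := hAB 0 0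
      have := hAB 0 1
      have := hAB 0 2
      have := hAB 1 0
      have := hAB 1 1
      have := hAB 1 2
      omega
    rw [hSA, hSM]
    exact_mod_cast h1
  have hb : 2 * (SA + (SM + SE)) + 1604 * 1604 ≤ 2 * 1604 * 1607 + 1604 := by
    have h1 := upper_sum univ (fun x => g (big x)) 1607 (hg.comp big_inj).injOn
      (fun x _ => hle _)
    simp only [Fintype.sum_sum_type, big, card_univ, Fintype.card_sum, Fintype.card_prod,
      Fintype.card_fin] at h1
    rw [hSA, hSM, hSE]
    push_cast at h1 ⊢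
    exact h1
  have hc : 2 * 600 * (T : ℤ) + 600 * 600 + 600 ≤ 2 * (SM + SE) := by
    have h1 := lower_sum univ (fun x => g (vM x) + g (vE x)) T hMinj.injOn (fun x _ => hTM x)
    simp only [card_univ, Fintype.card_prod, Fintype.card_fin] at h1
    push_cast at h1
    rw [sum_add_distrib] at h1
    rw [hSM, hSE]
    linarith
  -- split the legs according to the size of the inner label
  set H := univ.filter (fun x => T < g (vM x)) with hH
  set R := univ.filter (fun x => ¬ T < g (vM x)) with hR
  have hHR : (H.card : ℤ) + R.card = 600 := by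
    have := card_filter_add_card_filter_not (s := univ) (fun x => T < g (vM x))
    simp only [card_univ, Fintype.card_prod, Fintype.card_fin] at this
    exact_mod_cast this
  have hd : SM = ∑ x ∈ H, (g (vM x) : ℤ) + ∑ x ∈ R, (g (vM x) : ℤ) :=
    (sum_filter_add_sum_filter_not _ _ _).symm
  have he := lower_sum H (fun x => g (vM x)) T hgM.injOn (fun x hx => (mem_filter.mp hx).2)
  have hf1 := lower_sum R (fun x => g (vM x) + g (vE x)) T hMinj.injOn (fun x _ => hTM x)
  have hf2 := upper_sum R (fun x => g (vE x)) T hgE.injOn (fun x _ => hTE x)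
  push_cast at hf1
  rw [sum_add_distrib] at hf1
  have hk : 1607 ≤ (T : ℤ) + H.card + 5 := by
    have h1 : Ioc T 1607 ⊆ (H.image fun x => g (vM x)) ∪
        ((univ.image fun i => g (vA i)) ∪ (univ.image fun i => g (vB i))) := by
      intro z hz
      rw [mem_Ioc] at hz
      obtain ⟨w, rfl⟩ := hsurj z (by omega) hz.2
      simp only [mem_union, mem_image, mem_univ, true_and]
      rcases w with (i | x) | (i | x | x)
      · exact Or.inr (Or.inl ⟨i, rfl⟩)
      · exact absurd (hTL x) (not_le.mpr hz.1)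
      · exact Or.inr (Or.inr ⟨i, rfl⟩)
      · exact Or.inl ⟨x, mem_filter.mpr ⟨mem_univ _, hz.1⟩, rfl⟩
      · exact absurd (hTE x) (not_le.mpr hz.1)
    have h2 := card_le_card h1
    have h3 := card_union_le (H.image fun x => g (vM x))
      ((univ.image fun i => g (vA i)) ∪ (univ.image fun i => g (vB i)))
    have h4 := card_union_le (univ.image fun i => g (vA i)) (univ.image fun i => g (vB i))
    have h5 := card_image_le (s := H) (f := fun x => g (vM x))
    have h6 := card_image_le (s := univ) (f := fun i => g (vA i))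
    have h7 := card_image_le (s := univ) (f := fun i => g (vB i))
    simp only [card_univ, Fintype.card_fin, Nat.card_Ioc] at h2 h6 h7
    omega
  have hh : (0 : ℤ) ≤ H.card := Int.natCast_nonneg _
  have hRe : (R.card : ℤ) = 600 - H.card := by linarith
  rw [hRe] at hf1 hf2
  have hT2 : (H.card : ℤ) * (1602 - H.card) ≤ H.card * T :=
    mul_le_mul_of_nonneg_left (by linarith) hh
  nlinarith [sq_nonneg ((H.card : ℤ) - 497)]

set_option synthInstance.maxSize 1024 in
theorem not_main :
    ¬ (∀ (V : Type) [Fintype V] [DecidableEq V] (G : SimpleGraph V) [DecidableRel G.Adj],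
      G.Connected →
      (∃ f : Sym2 V → ℕ,
          Set.BijOn f G.edgeSet (Set.Icc 1 G.edgeFinset.card) ∧
          Function.Injective (fun v : V => ∑ w ∈ G.neighborFinset v, f s(v, w))) →
      ∃ f : Sym2 V → ℕ,
          Set.BijOn f G.edgeSet (Set.Icc 1 G.edgeFinset.card) ∧
          Function.Injective (fun v : V => ∑ w ∈ G.neighborFinset v, f s(v, w)) ∧
          ∀ u v : V, G.degree u < G.degree v →
            (∑ w ∈ G.neighborFinset u, f s(u, w)) < (∑ w ∈ G.neighborFinset v, f s(v, w))) := by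
  intro h
  obtain ⟨f, h1, h2, h3⟩ := h (Option W) (tree par ht hht) (connected _ _ _)
    (exists_labelling _ _ _ g0 g0_inj g0_range (vs_g0 ▸ s0_inj))
  obtain ⟨g, a1, a2, a3, a4, a5⟩ := of_strong _ _ _ f h1 h2 h3
  exact no_strong g a1 a2 a3 a4 a5

end Pool.Agent.Work.MP_163d7b_co
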