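import Mathlib

set_option autoImplicit false

namespace Pool.Agent.Work.MP_163d7b_co

open Finset

/-! ### Sums of distinct integers -/

lemma two_sum_range (n : ℕ) : 2 * ∑ k ∈ range n, (k : ℤ) = n * n - n := by
  induction n with
  | zero => simp
  | succ n ih => rw [sum_range_succ, mul_add, ih]; push_cast; ring

/-- Distinct naturals above `T` have a large sum. -/
lemma lower_sum {ι : Type} (s : Finset ι) (φ : ι → ℕ) (T : ℕ) (hinj : Set.InjOn φ s)
    (h : ∀ x ∈ s, T < φ x) :
    2 * (s.card : ℤ) * T + s.card * s.card + s.card ≤ 2 * ∑ x ∈ s, (φ x : ℤ) := by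
  classical
  have hinj' : Set.InjOn (fun x => (φ x : ℤ)) s := fun x hx y hy hxy => hinj hx hy (by
    simpa using hxy)
  have h1 := Finset.sum_range_le_sum (s := s.image fun x => (φ x : ℤ)) (c := (T : ℤ) + 1) (by
    intro x hx
    obtain ⟨y, hy, rfl⟩ := mem_image.mp hx
    have := h y hy
    omega)
  rw [card_image_of_injOn hinj', sum_image hinj', sum_add_distrib, sum_const, card_range,
    nsmul_eq_mul] at h1
  have h2 := two_sum_range s.card
  nlinarith

/-- Distinct naturals at most `T` have a small sum. -/
lemma upper_sum {ι : Type} (s : Finset ι) (φ : ι → ℕ) (T : ℕ) (hinj : Set.InjOn φ s)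
    (h : ∀ x ∈ s, φ x ≤ T) :
    2 * ∑ x ∈ s, (φ x : ℤ) + s.card * s.card ≤ 2 * (s.card : ℤ) * T + s.card := by
  classical
  have hinj' : Set.InjOn (fun x => (φ x : ℤ)) s := fun x hx y hy hxy => hinj hx hy (by
    simpa using hxy)
  have h1 := Finset.sum_le_sum_range (s := s.image fun x => (φ x : ℤ)) (c := (T : ℤ)) (by
    intro x hx
    obtain ⟨y, hy, rfl⟩ := mem_image.mp hx
    have := h y hy
    omega)
  rw [card_image_of_injOn hinj', sum_image hinj', sum_sub_distrib, sum_const, card_range,
    nsmul_eq_mul] at h1
  have h2 := two_sum_range s.card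
  nlinarith

/-! ### Rooted trees given by a parent map -/

section General

variable {W : Type} (par : W → Option W) (ht : Option W → ℕ)
  (hht : ∀ w, ht (par w) < ht (some w))

/-- The rooted tree on `Option W` (root `none`) in which `some w` is joined to `par w`. -/
def tree : SimpleGraph (Option W) where
  Adj u v := (∃ w, u = some w ∧ v = par w) ∨ (∃ w, v = some w ∧ u = par w)
  symm := ⟨fun _ _ h => h.symm⟩
  loopless := ⟨fun u h => by
    rcases h with ⟨w, h1, h2⟩ | ⟨w, h1, h2⟩ <;>
    · have := hht w
      rw [← h1, ← h2] at this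
      exact lt_irrefl _ this⟩

/-- The edge from `some w` to its parent. -/
def ed (w : W) : Sym2 (Option W) := s(some w, par w)

include hht in
lemma ed_inj : Function.Injective (ed par) := by
  intro w w' h
  rcases Sym2.eq_iff.mp h with ⟨h1, _⟩ | ⟨h1, h2⟩
  · exact Option.some.inj h1
  · have a := hht w
    have b := hht w'
    rw [← h1] at b
    rw [h2] at a
    omega

lemma edgeSet_eq : (tree par ht hht).edgeSet = Set.range (ed par) := by
  ext e
  induction e using Sym2.ind with
  | _ u v =>
    rw [SimpleGraph.mem_edgeSet]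
    constructor
    · rintro (⟨w, rfl, rfl⟩ | ⟨w, rfl, rfl⟩)
      · exact ⟨w, rfl⟩
      · exact ⟨w, Sym2.eq_swap⟩
    · rintro ⟨w, hw⟩
      rcases Sym2.eq_iff.mp hw with ⟨h1, h2⟩ | ⟨h1, h2⟩
      · exact Or.inl ⟨w, h1.symm, h2.symm⟩
      · exact Or.inr ⟨w, h1.symm, h2.symm⟩

lemma connected : (tree par ht hht).Connected := by
  have key : ∀ n, ∀ v, ht v ≤ n → (tree par ht hht).Reachable none v := by
    intro n
    induction n with
    | zero =>
      intro v hv
      cases v with
      | none => rfl
      | some w => have := hht w; omega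
    | succ n ih =>
      intro v hv
      cases v with
      | none => rfl
      | some w =>
        have h1 := hht w
        have h2 := ih (par w) (by omega)
        exact h2.trans (SimpleGraph.Adj.reachable (Or.inr ⟨w, rfl, rfl⟩))
  refine ⟨fun u v => ?_⟩
  exact (key _ u le_rfl).symm.trans (key _ v le_rfl)

variable [Fintype W] [DecidableEq W]

instance : DecidableRel (tree par ht hht).Adj := fun u v =>
  inferInstanceAs (Decidable ((∃ w, u = some w ∧ v = par w) ∨ (∃ w, v = some w ∧ u = par w)))

lemma card_edges : (tree par ht hht).edgeFinset.card = Fintype.card W := by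
  have : (tree par ht hht).edgeFinset = univ.image (ed par) := by
    ext e
    rw [SimpleGraph.mem_edgeFinset, edgeSet_eq]
    simp
  rw [this, card_image_of_injective _ (ed_inj par ht hht), card_univ]

/-- The vertex sum in terms of edge labels `g`. -/
def vs (g : W → ℕ) (v : Option W) : ℕ :=
  (∑ w, if some w = v then g w else 0) + ∑ w, if par w = v then g w else 0

lemma sum_nbr (F : Sym2 (Option W) → ℕ) (v : Option W) :
    ∑ u ∈ (tree par ht hht).neighborFinset v, F s(v, u) = vs par (fun w => F (ed par w)) v := by
  have h1 : (tree par ht hht).neighborFinset v =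
      (univ.filter fun w => some w = v).image par ∪ (univ.filter fun w => par w = v).image some := by
    ext u
    rw [SimpleGraph.mem_neighborFinset]
    simp only [mem_union, mem_image, mem_filter, mem_univ, true_and]
    constructor
    · rintro (⟨w, h1, h2⟩ | ⟨w, h1, h2⟩)
      · exact Or.inl ⟨w, h1.symm, h2.symm⟩
      · exact Or.inr ⟨w, h2.symm, h1.symm⟩
    · rintro (⟨w, h1, h2⟩ | ⟨w, h1, h2⟩)
      · exact Or.inl ⟨w, h1.symm, h2.symm⟩
      · exact Or.inr ⟨w, h2.symm, h1.symm⟩
  have hd : Disjoint ((univ.filter fun w => some w = v).image par)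
      ((univ.filter fun w => par w = v).image some) := by
    rw [disjoint_left]
    intro u hu hu'
    simp only [mem_image, mem_filter, mem_univ, true_and] at hu hu'
    obtain ⟨w, h1, h2⟩ := hu
    obtain ⟨w', h3, h4⟩ := hu'
    have a := hht w
    have b := hht w'
    rw [h1, h2] at a
    rw [h3, h4] at b
    omega
  rw [h1, sum_union hd, sum_image, sum_image, vs, sum_filter, sum_filter]
  · congr 1
    · refine sum_congr rfl fun w _ => ?_
      split_ifs with h
      · rw [← h]; rfl
      · rfl
    · refine sum_congr rfl fun w _ => ?_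
      split_ifs with h
      · rw [← h, ed, Sym2.eq_swap]
      · rfl
  · intro x _ y _ h
    exact Option.some.inj h
  · intro x hx y hy _
    simp only [coe_filter, mem_univ, true_and, Set.mem_ofPred_eq] at hx hy
    exact Option.some.inj (hx.trans hy.symm)

lemma degree_eq (v : Option W) : (tree par ht hht).degree v = vs par (fun _ => 1) v := by
  rw [← sum_nbr par ht hht (fun _ => 1) v, ← SimpleGraph.card_neighborFinset_eq_degree]
  simp

/-- A bijective labelling of the index type gives a bijective labelling of the edges. -/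
lemma exists_labelling (g : W → ℕ) (hg : Function.Injective g)
    (hr : ∀ w, 1 ≤ g w ∧ g w ≤ Fintype.card W) (hv : Function.Injective (vs par g)) :
    ∃ f : Sym2 (Option W) → ℕ,
      Set.BijOn f (tree par ht hht).edgeSet (Set.Icc 1 (tree par ht hht).edgeFinset.card) ∧
      Function.Injective
        (fun v => ∑ w ∈ (tree par ht hht).neighborFinset v, f s(v, w)) := by
  have hi := ed_inj par ht hht
  have hf : ∀ w, Function.extend (ed par) g (fun _ => 0) (ed par w) = g w :=
    fun w => hi.extend_apply _ _ _
  refine ⟨Function.extend (ed par) g (fun _ => 0), ?_, ?_⟩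
  · rw [edgeSet_eq, card_edges]
    refine ⟨?_, ?_, ?_⟩
    · rintro _ ⟨w, rfl⟩
      rw [hf]
      exact hr w
    · rintro _ ⟨w, rfl⟩ _ ⟨w', rfl⟩ h
      rw [hf, hf] at h
      rw [hg h]
    · have h1 : univ.image g = Finset.Icc 1 (Fintype.card W) := by
        apply eq_of_subset_of_card_le
        · intro x hx
          obtain ⟨w, _, rfl⟩ := mem_image.mp hx
          exact mem_Icc.mpr (hr w)
        · rw [card_image_of_injective _ hg]
          simp
      intro x hx
      have : x ∈ univ.image g := by
        rw [h1]
        exact mem_Icc.mpr hx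
      obtain ⟨w, _, rfl⟩ := mem_image.mp this
      exact ⟨ed par w, ⟨w, rfl⟩, hf w⟩
  · have : (fun v => ∑ w ∈ (tree par ht hht).neighborFinset v,
        Function.extend (ed par) g (fun _ => 0) s(v, w)) = vs par g := by
      funext v
      rw [sum_nbr]
      congr 1
      funext w
      exact hf w
    rw [this]
    exact hv

/-- A strongly antimagic labelling of the tree, read on the index type. -/
lemma of_strong (f : Sym2 (Option W) → ℕ)
    (h1 : Set.BijOn f (tree par ht hht).edgeSet (Set.Icc 1 (tree par ht hht).edgeFinset.card))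
    (h2 : Function.Injective (fun v => ∑ w ∈ (tree par ht hht).neighborFinset v, f s(v, w)))
    (h3 : ∀ u v, (tree par ht hht).degree u < (tree par ht hht).degree v →
      (∑ w ∈ (tree par ht hht).neighborFinset u, f s(u, w)) <
        (∑ w ∈ (tree par ht hht).neighborFinset v, f s(v, w))) :
    ∃ g : W → ℕ, Function.Injective g ∧ (∀ w, g w ≤ Fintype.card W) ∧
      (∀ x, 1 ≤ x → x ≤ Fintype.card W → ∃ w, g w = x) ∧ Function.Injective (vs par g) ∧
      ∀ u v, vs par (fun _ => 1) u < vs par (fun _ => 1) v → vs par g u < vs par g v := by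
  rw [edgeSet_eq, card_edges] at h1
  refine ⟨fun w => f (ed par w), ?_, ?_, ?_, ?_, ?_⟩
  · intro w w' h
    exact ed_inj par ht hht (h1.injOn ⟨w, rfl⟩ ⟨w', rfl⟩ h)
  · intro w
    exact (h1.mapsTo ⟨w, rfl⟩).2
  · intro x hx1 hx2
    obtain ⟨_, ⟨w, rfl⟩, hw⟩ := h1.surjOn ⟨hx1, hx2⟩
    exact ⟨w, hw⟩
  · intro u v huv
    apply h2
    simp only [sum_nbr]
    exact huv
  · intro u v huv
    have := h3 u v (by rw [degree_eq, degree_eq]; exact huv)
    rwa [sum_nbr, sum_nbr] at this

end General

end Pool.Agent.Work.MP_163d7b_co
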